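import Pool.Agent.N214.CL.Stm

/-!
Project CL (helper214), leaf LOVER (helper999): common extension of two places over an algebraically
closed subfield.
-/

set_option autoImplicit false
set_option linter.overlappingInstances false
set_option linter.unusedSectionVars false

open FF Module Polynomial Pool.Agent.Y172 Pool.Agent.W603.LV

namespace Pool.Agent.N999.CL

lemma coeff_mem {Ω : Type} [Field Ω] (A : Subring Ω) (s : Multiset Ω) (hs : ∀ z ∈ s, z ∈ A) (i : ℕ) :
    ((s.map fun z => X - C z).prod).coeff i ∈ A := by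
  have h : ∃ q : A[X], q.map A.subtype = (s.map fun z => X - C z).prod := by
    induction s using Multiset.induction_on with
    | empty => exact ⟨1, by simp⟩
    | cons a s ih =>
      obtain ⟨q, hq⟩ := ih fun z hz => hs z (Multiset.mem_cons_of_mem hz)
      refine ⟨(X - C ⟨a, hs a (Multiset.mem_cons_self a s)⟩) * q, ?_⟩
      rw [Polynomial.map_mul, hq, Multiset.map_cons, Multiset.prod_cons, Polynomial.map_sub, map_X,
        map_C]
      rfl
  obtain ⟨q, hq⟩ := h
  rw [← hq, coeff_map]
  exact (q.coeff i).2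

section
variable {L K : Type} [Field L] [Field K] [Algebra ℂ L] [Algebra ℂ K] [Algebra L K]
    [IsScalarTower ℂ L K] [FiniteDimensional L K]

theorem coeff_both (N : IntermediateField ℂ L) (hN : ∀ z : L, IsAlgebraic N z → z ∈ N)
    (R : Place ℂ L) (u : K) (hua : IsAlgebraic N u)
    (hu : ∀ (S : Place ℂ K) (a : ℕ), Over S R a → S.Reg u) (i : ℕ) :
    (minpoly L u).coeff i ∈ N ∧ R.Reg ((minpoly L u).coeff i) := by
  classical
  let Ω := IntermediateField.normalClosure L K (AlgebraicClosure K)
  let ik : Algebra ℂ Ω := ((algebraMap L Ω).comp (algebraMap ℂ L)).toAlgebra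
  have htow : IsScalarTower ℂ L Ω := IsScalarTower.of_algebraMap_eq fun _ => rfl
  have hfin : FiniteDimensional L Ω := inferInstance
  have hnorm : Normal L Ω := inferInstance
  obtain ⟨S', e', hS'⟩ := exists_above (k := ℂ) (L := Ω) R
  have hA : ∀ x : K, ((minpoly L x).map (algebraMap L Ω)).Splits := by
    intro x
    have := hnorm.splits (algebraMap K Ω x)
    rwa [minpoly.algebraMap_eq (algebraMap K Ω).injective x] at this
  have hroot : ∀ z ∈ ((minpoly L u).map (algebraMap L Ω)).roots, ∃ σ : K →ₐ[L] Ω, σ u = z := by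
    intro z hz
    have h1 := Algebra.IsAlgebraic.range_eval_eq_rootSet_minpoly_of_splits Ω hA u
    have h2 : z ∈ (minpoly L u).rootSet Ω := by
      rw [rootSet_def, Finset.mem_coe, Multiset.mem_toFinset]
      exact hz
    rw [← h1] at h2
    exact h2
  let A : Subring Ω := S'.O.toSubring ⊓ (integralClosure N Ω).toSubring
  have hroots : ∀ z ∈ ((minpoly L u).map (algebraMap L Ω)).roots, z ∈ A := by
    intro z hz
    obtain ⟨σ, rfl⟩ := hroot z hz
    refine ⟨?_, ?_⟩
    · obtain ⟨Q1, e, e1, hQ1, he1, -, hord⟩ := below_emb σ hS'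
      change S'.Reg (σ u)
      rcases hu Q1 e hQ1 with h | h
      · left
        rw [h, map_zero]
      · right
        rw [hord]
        exact mul_nonneg (Int.natCast_nonneg _) h
    · exact (IsAlgebraic.isIntegral hua).map (σ.restrictScalars N)
  have hint : IsIntegral L u := Algebra.IsIntegral.isIntegral u
  have h3 := (hA u).eq_prod_roots_of_monic ((minpoly.monic hint).map _)
  have h4 := coeff_mem A _ hroots i
  rw [← h3, coeff_map] at h4
  refine ⟨hN _ ?_, (Over.reg hS').1 h4.1⟩
  have h5 : IsIntegral N (algebraMap L Ω ((minpoly L u).coeff i)) := h4.2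
  exact ((isIntegral_algebraMap_iff (algebraMap L Ω).injective).1 h5).isAlgebraic

/-- an element with a pole is not the root of a monic polynomial with regular coefficients -/
lemma no_pole {F : Type} [Field F] [Algebra ℂ F] (Q : Place ℂ F) (u : F) (hu0 : u ≠ 0)
    (hu : Q.ord u = -1) (n : ℕ) (c : ℕ → F) (hc : ∀ i, Q.Reg (c i)) (hn : 1 ≤ n)
    (h : u ^ n + ∑ i ∈ Finset.range n, c i * u ^ i = 0) : False := by
  have h1 : Ge Q (-(n - 1 : ℤ)) (∑ i ∈ Finset.range n, c i * u ^ i) := by
    refine Ge.sum _ _ fun i hi => ?_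
    rw [Finset.mem_range] at hi
    have h2 : Ge Q 0 (c i) := hc i
    have h3 : Ge Q (i * (-1)) (u ^ i) := Ge.pow (Or.inr (by rw [hu])) i
    exact (h2.mul h3).mono (by omega)
  have h4 : u ^ n = -∑ i ∈ Finset.range n, c i * u ^ i := eq_neg_of_add_eq_zero_left h
  have h5 := h1.neg
  rw [← h4] at h5
  rcases h5 with h5 | h5
  · exact pow_ne_zero n hu0 h5
  · rw [Q.ord_pow, hu] at h5
    omega

end

open Pool.Agent.W619.PQ Pool.Agent.W619.Y in
theorem LOVER : Pool.Agent.N214.CL.S_LOVER := by
  classical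
  intro L K _ _ _ _ _ _ _ N hN M _ P Q e R r hQ hR
  by_contra hno
  have hMK : IsScalarTower ℂ M K := IsScalarTower.of_algebraMap_eq fun _ => rfl
  -- the places over `P`
  obtain ⟨T, _, hT, -, -⟩ := exists_places_over (K' := M) P
  obtain ⟨t, ht0, ht⟩ := Q.surj
  obtain ⟨u, hu1, hu2⟩ := approx_one (T.erase Q) Q (Finset.notMem_erase Q T) (t⁻¹) 1
  have htn : Q.ord t⁻¹ = -1 := by rw [Q.ord_inv, ht]
  have hu : u ≠ 0 ∧ Q.ord u = -1 := by
    rcases hu1 with h | h
    · rw [sub_eq_zero] at h
      rw [h]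
      exact ⟨inv_ne_zero ht0, htn⟩
    · by_cases hz : u - t⁻¹ = 0
      · rw [sub_eq_zero] at hz
        rw [hz]
        exact ⟨inv_ne_zero ht0, htn⟩
      have h1 := Q.ord_add_eq (inv_ne_zero ht0) hz (by omega)
      rwa [add_sub_cancel, htn] at h1
  -- regularity at the places of `K` over `R`
  have hreg : ∀ (S : Place ℂ K) (a : ℕ), Over S R a → S.Reg (algebraMap M K u) := by
    intro S a hS
    obtain ⟨f, -, hf⟩ := P.surj
    have hord : ∀ g : N, S.ord (algebraMap M K (algebraMap N M g)) = a * (r * P.ord g) := by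
      intro g
      rw [← IsScalarTower.algebraMap_apply N M K, IsScalarTower.algebraMap_apply N L K, hS.2, hR.2]
    have ha : (0 : ℤ) < a := by exact_mod_cast hS.1
    have hr : (0 : ℤ) < r := by exact_mod_cast hR.1
    obtain ⟨Q', c, hc, hQ'⟩ := exists_restrict S (algebraMap M K) (fun z hz => by
      rw [← IsScalarTower.algebraMap_apply ℂ M K]
      exact S.ord_const hz) (f0 := algebraMap N M f) (by
      rw [hord, hf, mul_one]
      exact (mul_pos ha hr).ne')
    have hSQ : Over S Q' c := ⟨hc, hQ'⟩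
    have hc' : (0 : ℤ) < c := by exact_mod_cast hc
    have h1 : (c : ℤ) * Q'.ord (algebraMap N M f) = a * r := by
      rw [← hQ', hord, hf, mul_one]
    have h2 : 0 < Q'.ord (algebraMap N M f) := by
      have h3 : 0 < (c : ℤ) * Q'.ord (algebraMap N M f) := by
        rw [h1]
        exact mul_pos ha hr
      by_contra h4
      exact absurd h3 (not_lt.2 (mul_nonpos_of_nonneg_of_nonpos hc'.le (not_lt.1 h4)))
    have hQP : Over Q' P (Q'.ord (algebraMap N M f)).toNat := by
      refine ⟨by omega, fun g => ?_⟩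
      rw [Int.toNat_of_nonneg h2.le]
      apply mul_left_cancel₀ hc'.ne'
      rw [← hQ', hord, ← mul_assoc, ← mul_assoc, h1]
    have hne : Q' ≠ Q := by
      rintro rfl
      exact hno ⟨S, c, a, hSQ, hS⟩
    have h6 := hu2 Q' (Finset.mem_erase.2 ⟨hne, hT Q' _ hQP⟩)
    exact (Over.reg hSQ).2 (h6.mono (by norm_num))
  have halg : IsAlgebraic N (algebraMap M K u) := by
    have h1 : IsAlgebraic N u := Algebra.IsAlgebraic.isAlgebraic u
    exact h1.algebraMap
  have hco := coeff_both N hN R (algebraMap M K u) halg hreg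
  set p := minpoly L (algebraMap M K u) with hp
  have hint : IsIntegral L (algebraMap M K u) := Algebra.IsIntegral.isIntegral _
  have hmon : p.Monic := minpoly.monic hint
  have hdeg : 1 ≤ p.natDegree := minpoly.natDegree_pos hint
  have h0 : Polynomial.aeval (algebraMap M K u) p = 0 := minpoly.aeval _ _
  let c : ℕ → M := fun i => algebraMap N M ⟨p.coeff i, (hco i).1⟩
  have hc : ∀ i, Q.Reg (c i) := by
    intro i
    refine (Over.reg hQ).2 ((Over.reg hR).1 ?_)
    exact (hco i).2
  refine no_pole Q u hu.1 hu.2 p.natDegree c hc hdeg ?_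
  apply (algebraMap M K).injective
  rw [map_zero, ← h0, aeval_eq_sum_range, Finset.sum_range_succ, hmon.coeff_natDegree, one_smul,
    map_add, map_pow, map_sum, add_comm]
  congr 1
  refine Finset.sum_congr rfl fun i _ => ?_
  rw [map_mul, map_pow, Algebra.smul_def]
  congr 1

end Pool.Agent.N999.CL
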